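import Mathlib.Analysis.InnerProductSpace.Basic
import Mathlib.Analysis.Normed.Module.DoubleDual

/-!
Unbundled working version of the definitions (internal; the statement uses `Defs`).
-/

universe u

namespace Pool.Agent.MP_c384ac_an.Unb

/-- The data of an operator ideal with a norm, over the scalar field `𝕜` (real or complex), on
the Banach spaces of universe `u`: `comp X Y` is the component `𝔄(X,Y)`, a linear subspace of the
bounded operators, and `nrm X Y` is the ideal norm `𝐀` (only its values on `comp X Y` matter). -/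
structure IdealData (𝕜 : Type) [RCLike 𝕜] where
  /-- the component `𝔄(X,Y)` -/
  comp : ∀ (X Y : Type u) [NormedAddCommGroup X] [NormedSpace 𝕜 X] [CompleteSpace X]
    [NormedAddCommGroup Y] [NormedSpace 𝕜 Y] [CompleteSpace Y], Submodule 𝕜 (X →L[𝕜] Y)
  /-- the ideal norm `𝐀` -/
  nrm : ∀ (X Y : Type u) [NormedAddCommGroup X] [NormedSpace 𝕜 X] [CompleteSpace X]
    [NormedAddCommGroup Y] [NormedSpace 𝕜 Y] [CompleteSpace Y], (X →L[𝕜] Y) → ℝ

namespace IdealData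

variable {𝕜 : Type} [RCLike 𝕜] (A : IdealData.{u} 𝕜)

/-- Finite-rank operators belong to the ideal. -/
def FiniteRankMem : Prop :=
  ∀ (X Y : Type u) [NormedAddCommGroup X] [NormedSpace 𝕜 X] [CompleteSpace X]
    [NormedAddCommGroup Y] [NormedSpace 𝕜 Y] [CompleteSpace Y] (T : X →L[𝕜] Y),
    FiniteDimensional 𝕜 (LinearMap.range (T : X →ₗ[𝕜] Y)) → T ∈ A.comp X Y

/-- The triangle inequality on each component. -/
def Subadditive : Prop :=
  ∀ (X Y : Type u) [NormedAddCommGroup X] [NormedSpace 𝕜 X] [CompleteSpace X]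
    [NormedAddCommGroup Y] [NormedSpace 𝕜 Y] [CompleteSpace Y] (S T : X →L[𝕜] Y),
    S ∈ A.comp X Y → T ∈ A.comp X Y → A.nrm X Y (S + T) ≤ A.nrm X Y S + A.nrm X Y T

/-- Homogeneity on each component. -/
def Homogeneous : Prop :=
  ∀ (X Y : Type u) [NormedAddCommGroup X] [NormedSpace 𝕜 X] [CompleteSpace X]
    [NormedAddCommGroup Y] [NormedSpace 𝕜 Y] [CompleteSpace Y] (c : 𝕜) (T : X →L[𝕜] Y),
    T ∈ A.comp X Y → A.nrm X Y (c • T) = ‖c‖ * A.nrm X Y T

/-- The ideal norm dominates the operator norm (so it is a norm on each component). -/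
def DominatesOpNorm : Prop :=
  ∀ (X Y : Type u) [NormedAddCommGroup X] [NormedSpace 𝕜 X] [CompleteSpace X]
    [NormedAddCommGroup Y] [NormedSpace 𝕜 Y] [CompleteSpace Y] (T : X →L[𝕜] Y),
    T ∈ A.comp X Y → ‖T‖ ≤ A.nrm X Y T

/-- Each component is complete for the ideal norm. -/
def Complete : Prop :=
  ∀ (X Y : Type u) [NormedAddCommGroup X] [NormedSpace 𝕜 X] [CompleteSpace X]
    [NormedAddCommGroup Y] [NormedSpace 𝕜 Y] [CompleteSpace Y] (s : ℕ → X →L[𝕜] Y),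
    (∀ n, s n ∈ A.comp X Y) →
    (∀ ε > (0 : ℝ), ∃ k, ∀ m ≥ k, ∀ n ≥ k, A.nrm X Y (s m - s n) < ε) →
    ∃ T ∈ A.comp X Y, Filter.Tendsto (fun n => A.nrm X Y (s n - T)) Filter.atTop (nhds 0)

/-- The ideal norm of the rank-one operator `x' ⊗ y` is `‖x'‖ ‖y‖`. -/
def RankOneNorm : Prop :=
  ∀ (X Y : Type u) [NormedAddCommGroup X] [NormedSpace 𝕜 X] [CompleteSpace X]
    [NormedAddCommGroup Y] [NormedSpace 𝕜 Y] [CompleteSpace Y] (x' : StrongDual 𝕜 X) (y : Y),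
    A.nrm X Y (ContinuousLinearMap.smulRight x' y) = ‖x'‖ * ‖y‖

/-- The ideal property: `R T S` is in the ideal and `𝐀(R T S) ≤ ‖R‖ 𝐀(T) ‖S‖`. -/
def IdealProperty : Prop :=
  ∀ (W X Y Z : Type u) [NormedAddCommGroup W] [NormedSpace 𝕜 W] [CompleteSpace W]
    [NormedAddCommGroup X] [NormedSpace 𝕜 X] [CompleteSpace X]
    [NormedAddCommGroup Y] [NormedSpace 𝕜 Y] [CompleteSpace Y]
    [NormedAddCommGroup Z] [NormedSpace 𝕜 Z] [CompleteSpace Z]
    (R : Y →L[𝕜] Z) (T : X →L[𝕜] Y) (S : W →L[𝕜] X), T ∈ A.comp X Y →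
    R.comp (T.comp S) ∈ A.comp W Z ∧ A.nrm W Z (R.comp (T.comp S)) ≤ ‖R‖ * A.nrm X Y T * ‖S‖

end IdealData

/-- A Banach operator ideal `(𝔄, 𝐀)`. -/
structure BanachIdeal (𝕜 : Type) [RCLike 𝕜] extends IdealData.{u} 𝕜 where
  finiteRankMem : toIdealData.FiniteRankMem
  subadditive : toIdealData.Subadditive
  homogeneous : toIdealData.Homogeneous
  dominatesOpNorm : toIdealData.DominatesOpNorm
  complete : toIdealData.Complete
  rankOneNorm : toIdealData.RankOneNorm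
  idealProperty : toIdealData.IdealProperty

/-- `(𝔄, 𝐀)` is right-accessible: every operator `T : E → Y` on a finite-dimensional `E` factors
as `T = J_N S` through a finite-dimensional subspace `N` of `Y` with `𝐀(S) ≤ (1+ε) 𝐀(T)`. -/
def BanachIdeal.RightAccessible {𝕜 : Type} [RCLike 𝕜] (A : BanachIdeal.{u} 𝕜) : Prop :=
  ∀ (E Y : Type u) [NormedAddCommGroup E] [NormedSpace 𝕜 E] [CompleteSpace E]
    [FiniteDimensional 𝕜 E] [NormedAddCommGroup Y] [NormedSpace 𝕜 Y] [CompleteSpace Y]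
    (T : E →L[𝕜] Y) (ε : ℝ), 0 < ε →
    ∃ (N : Submodule 𝕜 Y) (_ : FiniteDimensional 𝕜 N) (_ : CompleteSpace N) (S : E →L[𝕜] N),
      T = N.subtypeL.comp S ∧ A.nrm E N S ≤ (1 + ε) * A.nrm E Y T

/-- `(𝔄, 𝐀)` satisfies the principle of `𝔄`-local reflexivity: conditions (i), (ii), (iii). -/
def BanachIdeal.LRP {𝕜 : Type} [RCLike 𝕜] (A : BanachIdeal.{u} 𝕜) : Prop :=
  ∀ (E Y : Type u) [NormedAddCommGroup E] [NormedSpace 𝕜 E] [CompleteSpace E]
    [FiniteDimensional 𝕜 E] [NormedAddCommGroup Y] [NormedSpace 𝕜 Y] [CompleteSpace Y]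
    (F : Submodule 𝕜 (StrongDual 𝕜 Y)) [FiniteDimensional 𝕜 F] (ε : ℝ), 0 < ε →
    ∀ T : E →L[𝕜] StrongDual 𝕜 (StrongDual 𝕜 Y), ∃ S : E →L[𝕜] Y,
      A.nrm E Y S ≤ (1 + ε) * A.nrm E (StrongDual 𝕜 (StrongDual 𝕜 Y)) T ∧
      (∀ x : E, ∀ y' ∈ F, y' (S x) = T x y') ∧
      (∀ x : E, T x ∈ Set.range (NormedSpace.inclusionInDoubleDual 𝕜 Y) →
        NormedSpace.inclusionInDoubleDual 𝕜 Y (S x) = T x)

end Pool.Agent.MP_c384ac_an.Unb
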