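import Mathlib.Analysis.InnerProductSpace.Basic
import Mathlib.Analysis.Normed.Module.DoubleDual

/-!
Banach operator ideals, right-accessibility and the principle of local reflexivity for ideals.
-/

universe u

namespace Pool.Agent.MP_c384ac_an

/-- A Banach space over the scalar field `𝕜` (real or complex). -/
structure Ban (𝕜 : Type) [RCLike 𝕜] where
  /-- the underlying type -/
  carrier : Type u
  [grp : NormedAddCommGroup carrier]
  [spc : NormedSpace 𝕜 carrier]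
  [cpl : CompleteSpace carrier]

attribute [instance] Ban.grp Ban.spc Ban.cpl

variable {𝕜 : Type} [RCLike 𝕜]

/-- The bounded operators `𝔏(X,Y)`. -/
abbrev Op (X Y : Ban.{u} 𝕜) : Type u := X.carrier →L[𝕜] Y.carrier

/-- The dual Banach space `X'`. -/
noncomputable def Ban.dualSp (X : Ban.{u} 𝕜) : Ban.{u} 𝕜 := Ban.mk (StrongDual 𝕜 X.carrier)

/-- The value `⟨x, x'⟩` of the functional `x'` at `x`. -/
noncomputable def Ban.pairing (X : Ban.{u} 𝕜) (x : X.carrier) (x' : X.dualSp.carrier) : 𝕜 :=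
  (show StrongDual 𝕜 X.carrier from x') x

/-- The canonical embedding `j_X : X → X''`. -/
noncomputable def Ban.canon (X : Ban.{u} 𝕜) : Op X X.dualSp.dualSp :=
  NormedSpace.inclusionInDoubleDual 𝕜 X.carrier

/-- A finite-dimensional subspace, as a Banach space. -/
def Ban.subSp (X : Ban.{u} 𝕜) (N : Submodule 𝕜 X.carrier) [FiniteDimensional 𝕜 N] : Ban.{u} 𝕜 :=
  @Ban.mk 𝕜 _ N _ _ (FiniteDimensional.complete 𝕜 N)

/-- The inclusion `J_N` of a finite-dimensional subspace. -/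
def Ban.subIncl (X : Ban.{u} 𝕜) (N : Submodule 𝕜 X.carrier) [FiniteDimensional 𝕜 N] :
    Op (X.subSp N) X :=
  N.subtypeL

/-- The data of an operator ideal with a norm: `cmpt X Y` is the component `𝔄(X,Y)`, a linear
subspace of the bounded operators, and `nrm X Y` is the ideal norm `𝐀` (only its values on
`cmpt X Y` matter). -/
structure IdealData (𝕜 : Type) [RCLike 𝕜] where
  /-- the component `𝔄(X,Y)` -/
  cmpt : ∀ X Y : Ban.{u} 𝕜, Submodule 𝕜 (Op X Y)
  /-- the ideal norm `𝐀` -/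
  nrm : ∀ X Y : Ban.{u} 𝕜, Op X Y → ℝ

namespace IdealData

variable (A : IdealData.{u} 𝕜)

/-- `T ∈ 𝔄(X,Y)`. -/
def InIdeal (X Y : Ban.{u} 𝕜) (T : Op X Y) : Prop := T ∈ A.cmpt X Y

/-- Finite-rank operators belong to the ideal. -/
def FiniteRankMem : Prop :=
  ∀ (X Y : Ban.{u} 𝕜) (T : Op X Y),
    FiniteDimensional 𝕜 (LinearMap.range T.toLinearMap) → A.InIdeal X Y T

/-- The triangle inequality on each component. -/
def Subadd : Prop :=
  ∀ (X Y : Ban.{u} 𝕜) (S T : Op X Y), A.InIdeal X Y S → A.InIdeal X Y T →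
    A.nrm X Y (S + T) ≤ A.nrm X Y S + A.nrm X Y T

/-- Homogeneity on each component. -/
def Homog : Prop :=
  ∀ (X Y : Ban.{u} 𝕜) (c : 𝕜) (T : Op X Y), A.InIdeal X Y T →
    A.nrm X Y (c • T) = ‖c‖ * A.nrm X Y T

/-- The ideal norm dominates the operator norm (so it is a norm on each component). -/
def Dominates : Prop :=
  ∀ (X Y : Ban.{u} 𝕜) (T : Op X Y), A.InIdeal X Y T → ‖T‖ ≤ A.nrm X Y T

/-- Each component is complete for the ideal norm. -/
def Cplt : Prop :=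
  ∀ (X Y : Ban.{u} 𝕜) (s : ℕ → Op X Y), (∀ n, A.InIdeal X Y (s n)) →
    (∀ ε > (0 : ℝ), ∃ k, ∀ m ≥ k, ∀ n ≥ k, A.nrm X Y (s m - s n) < ε) →
    ∃ T, A.InIdeal X Y T ∧ Filter.Tendsto (fun n => A.nrm X Y (s n - T)) Filter.atTop (nhds 0)

/-- The ideal norm of the rank-one operator `x' ⊗ y` is `‖x'‖ ‖y‖`. -/
def RankOneNrm : Prop :=
  ∀ (X Y : Ban.{u} 𝕜) (x' : StrongDual 𝕜 X.carrier) (y : Y.carrier),
    A.nrm X Y (ContinuousLinearMap.smulRight x' y) = ‖x'‖ * ‖y‖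

/-- The ideal property: `R T S` is in the ideal and `𝐀(R T S) ≤ ‖R‖ 𝐀(T) ‖S‖`. -/
def IdealProp : Prop :=
  ∀ (W X Y Z : Ban.{u} 𝕜) (R : Op Y Z) (T : Op X Y) (S : Op W X), A.InIdeal X Y T →
    A.InIdeal W Z (R.comp (T.comp S)) ∧ A.nrm W Z (R.comp (T.comp S)) ≤ ‖R‖ * A.nrm X Y T * ‖S‖

end IdealData

/-- A Banach operator ideal `(𝔄, 𝐀)`. -/
structure BanachIdeal (𝕜 : Type) [RCLike 𝕜] extends IdealData.{u} 𝕜 where
  finiteRankMem : toIdealData.FiniteRankMem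
  subadd : toIdealData.Subadd
  homog : toIdealData.Homog
  dominates : toIdealData.Dominates
  cplt : toIdealData.Cplt
  rankOneNrm : toIdealData.RankOneNrm
  idealProp : toIdealData.IdealProp

/-- `(𝔄, 𝐀)` is right-accessible: every operator `T : E → Y` on a finite-dimensional `E` factors
as `T = J_N S` through a finite-dimensional subspace `N` of `Y` with `𝐀(S) ≤ (1+ε) 𝐀(T)`. -/
def BanachIdeal.RightAccessible (A : BanachIdeal.{u} 𝕜) : Prop :=
  ∀ (E Y : Ban.{u} 𝕜), FiniteDimensional 𝕜 E.carrier → ∀ (T : Op E Y) (ε : ℝ), 0 < ε →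
    ∃ (N : Submodule 𝕜 Y.carrier) (_ : FiniteDimensional 𝕜 N) (S : Op E (Y.subSp N)),
      T = (Y.subIncl N).comp S ∧ A.nrm E (Y.subSp N) S ≤ (1 + ε) * A.nrm E Y T

/-- `(𝔄, 𝐀)` satisfies the principle of `𝔄`-local reflexivity: conditions (i), (ii), (iii). -/
def BanachIdeal.LRP (A : BanachIdeal.{u} 𝕜) : Prop :=
  ∀ (E Y : Ban.{u} 𝕜), FiniteDimensional 𝕜 E.carrier →
    ∀ F : Submodule 𝕜 Y.dualSp.carrier, FiniteDimensional 𝕜 F → ∀ ε : ℝ, 0 < ε →
    ∀ T : Op E Y.dualSp.dualSp, ∃ S : Op E Y,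
      A.nrm E Y S ≤ (1 + ε) * A.nrm E Y.dualSp.dualSp T ∧
      (∀ x : E.carrier, ∀ y' ∈ F, Y.pairing (S x) y' = Y.dualSp.pairing y' (T x)) ∧
      (∀ x : E.carrier, T x ∈ Set.range Y.canon → Y.canon (S x) = T x)

end Pool.Agent.MP_c384ac_an
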