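import Mathlib.LinearAlgebra.FreeModule.PID
import Mathlib.Topology.Sheaves.Presheaf
import Mathlib.RingTheory.Flat.TorsionFree
import Mathlib.Algebra.Module.StablyFree.Basic
import Mathlib.Topology.GDelta.MetrizableSpace
import Mathlib.Analysis.Normed.Group.Quotient
import Mathlib.Topology.ContinuousMap.Bounded.Normed
import Mathlib.Algebra.Order.Star.Real
import Mathlib.CategoryTheory.Action.Concrete
import Mathlib.RingTheory.PiTensorProduct
import Mathlib.RingTheory.SimpleRing.Principal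
import Mathlib.Order.CompletePartialOrder
import Mathlib.RingTheory.Henselian
import Mathlib.RingTheory.RegularLocalRing.Defs
import Pool.Agent.MP_c384ac_an.Core
import Pool.Agent.MP_c384ac_an.Defs

-- ======== part 0: formerly Pool.Agent.MP_c384ac_an.PLR
section MrgPart0

/-!
The classical principle of local reflexivity (upper bound form), proved by Hahn-Banach
separation in a finite power of the space.
-/

set_option maxSynthPendingDepth 3

namespace Pool.Agent.MP_c384ac_an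

open NormedSpace

variable {𝕜 : Type*} [RCLike 𝕜]

/-- Hahn-Banach: a norming functional for a seminorm. -/
theorem exists_dual_le_seminorm {V : Type*} [AddCommGroup V] [Module 𝕜 V] (p : Seminorm 𝕜 V)
    (x : V) : ∃ g : V →ₗ[𝕜] 𝕜, g x = (p x : 𝕜) ∧ ∀ y, ‖g y‖ ≤ p y := by
  let : SeminormedAddCommGroup V := p.toAddGroupSeminorm.toSeminormedAddCommGroup
  have hn : ∀ y : V, ‖y‖ = p y := fun _ => rfl
  let : NormedSpace 𝕜 V := ⟨fun c y => by rw [hn, hn, map_smul_eq_mul]⟩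
  obtain ⟨g, hg1, hg2⟩ := exists_dual_vector'' 𝕜 x
  refine ⟨g.toLinearMap, by simpa [hn] using hg2, fun y => ?_⟩
  calc ‖g y‖ ≤ ‖g‖ * ‖y‖ := g.le_opNorm y
    _ ≤ 1 * ‖y‖ := by gcongr
    _ = p y := by rw [one_mul, hn]

/-- The norms of the coordinates of a functional on a finite power (sup norm) sum to at most
the norm of the functional. -/
theorem sum_norm_coord_le {Y : Type*} [NormedAddCommGroup Y] [NormedSpace 𝕜 Y] {ι : Type*}
    [Fintype ι] (g : ι → StrongDual 𝕜 Y) (h : ∀ w : ι → Y, ‖∑ l, g l (w l)‖ ≤ ‖w‖) :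
    ∑ l, ‖g l‖ ≤ 1 := by
  refine le_of_forall_pos_le_add fun η hη => ?_
  set δ : ℝ := η / (Fintype.card ι + 1) with hδ
  have hδpos : 0 < δ := by positivity
  have key : ∀ l, ∃ y : Y, ‖y‖ ≤ 1 ∧ ‖g l‖ - δ ≤ RCLike.re (g l y) := by
    intro l
    obtain ⟨y, hy1, hy2⟩ := (g l).exists_lt_apply_of_lt_opNorm (r := ‖g l‖ - δ) (by linarith)
    obtain ⟨c, hc1, hc2⟩ := RCLike.exists_norm_eq_mul_self (g l y)
    refine ⟨c • y, ?_, ?_⟩
    · rw [norm_smul, hc1, one_mul]; exact hy1.le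
    · rw [map_smul, smul_eq_mul, ← hc2, RCLike.ofReal_re]; exact hy2.le
  choose y hy1 hy2 using key
  have h1 : ‖y‖ ≤ 1 := (pi_norm_le_iff_of_nonneg zero_le_one).2 hy1
  have h2 : ∑ l, (‖g l‖ - δ) ≤ 1 := by
    calc ∑ l, (‖g l‖ - δ) ≤ ∑ l, RCLike.re (g l (y l)) := Finset.sum_le_sum fun l _ => hy2 l
      _ = RCLike.re (∑ l, g l (y l)) := by rw [map_sum]
      _ ≤ ‖∑ l, g l (y l)‖ := RCLike.re_le_norm _
      _ ≤ 1 := (h y).trans h1
  rw [Finset.sum_sub_distrib, Finset.sum_const, Finset.card_univ, nsmul_eq_mul] at h2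
  have h3 : (Fintype.card ι : ℝ) * δ ≤ η := by
    rw [hδ, mul_div_assoc', div_le_iff₀ (by positivity)]
    nlinarith
  linarith

/-- A finite net of the unit ball nearly norms every operator. -/
theorem exists_net {E : Type*} [NormedAddCommGroup E] [NormedSpace 𝕜 E] [FiniteDimensional 𝕜 E]
    {δ : ℝ} (hδ : 0 < δ) : ∃ t : Finset E, (∀ x ∈ t, ‖x‖ ≤ 1) ∧
      ∀ x : E, ‖x‖ ≤ 1 → ∃ y ∈ t, ‖x - y‖ < δ := by
  have : ProperSpace E := FiniteDimensional.proper_rclike 𝕜 E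
  obtain ⟨t, hts, htf, hcov⟩ :=
    finite_cover_balls_of_compact (isCompact_closedBall (0 : E) 1) hδ
  refine ⟨htf.toFinset, fun x hx => ?_, fun x hx => ?_⟩
  · have := hts (htf.mem_toFinset.1 hx)
    simpa using this
  · have hx' : x ∈ Metric.closedBall (0 : E) 1 := by simpa using hx
    obtain ⟨y, hy, hxy⟩ := Set.mem_iUnion₂.1 (hcov hx')
    exact ⟨y, htf.mem_toFinset.2 hy, by simpa [dist_eq_norm] using hxy⟩

theorem opNorm_le_of_net {E Y : Type*} [NormedAddCommGroup E] [NormedSpace 𝕜 E]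
    [NormedAddCommGroup Y] [NormedSpace 𝕜 Y] {δ c : ℝ} (hδ : 0 < δ) (hc : 0 ≤ c) (t : Finset E)
    (ht : ∀ x : E, ‖x‖ ≤ 1 → ∃ y ∈ t, ‖x - y‖ < δ) (R : E →L[𝕜] Y)
    (hR : ∀ y ∈ t, ‖R y‖ ≤ c) : (1 - δ) * ‖R‖ ≤ c := by
  have : ‖R‖ ≤ c + δ * ‖R‖ := by
    refine ContinuousLinearMap.opNorm_le_of_unit_norm (by positivity) fun x hx => ?_
    obtain ⟨y, hy, hxy⟩ := ht x hx.le
    calc ‖R x‖ = ‖R y + R (x - y)‖ := by rw [← map_add]; simp
      _ ≤ ‖R y‖ + ‖R (x - y)‖ := norm_add_le _ _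
      _ ≤ c + ‖R‖ * ‖x - y‖ := add_le_add (hR y hy) (R.le_opNorm _)
      _ ≤ c + δ * ‖R‖ := by
          rw [mul_comm δ]; gcongr
  linarith

/-- An exact algebraic solution of conditions (ii) and (iii). -/
theorem exists_exact_solution {E Y : Type*} [NormedAddCommGroup E] [NormedSpace 𝕜 E]
    [FiniteDimensional 𝕜 E] [NormedAddCommGroup Y] [NormedSpace 𝕜 Y]
    (F : Submodule 𝕜 (StrongDual 𝕜 Y)) [FiniteDimensional 𝕜 F]
    (T : E →L[𝕜] StrongDual 𝕜 (StrongDual 𝕜 Y)) :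
    ∃ S : E →ₗ[𝕜] Y, (∀ x : E, ∀ y' ∈ F, y' (S x) = T x y') ∧
      (∀ x : E, T x ∈ Set.range (inclusionInDoubleDual 𝕜 Y) →
        inclusionInDoubleDual 𝕜 Y (S x) = T x) := by
  set j := inclusionInDoubleDual 𝕜 Y with hj
  have hjinj : Function.Injective j := (inclusionInDoubleDualLi 𝕜 (E := Y)).injective
  obtain ⟨g, hg⟩ := LinearMap.exists_leftInverse_of_injective
    (j : Y →ₗ[𝕜] StrongDual 𝕜 (StrongDual 𝕜 Y))
    (LinearMap.ker_eq_bot_of_injective hjinj)
  have hg' : ∀ y, g (j y) = y := fun y => LinearMap.congr_fun hg y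
  let B : F →ₗ[𝕜] Y →ₗ[𝕜] 𝕜 := (ContinuousLinearMap.coeLM 𝕜).comp F.subtype
  have hB : Function.Injective B := by
    intro a b hab
    apply Subtype.ext
    ext y
    exact LinearMap.congr_fun hab y
  have hsurj : Function.Surjective B.flip := LinearMap.flip_surjective_iff₁.2 hB
  obtain ⟨σ, hσ⟩ := B.flip.exists_rightInverse_of_surjective (LinearMap.range_eq_top.2 hsurj)
  have hσ' : ∀ (φ : F →ₗ[𝕜] 𝕜) (f : F), (f : StrongDual 𝕜 Y) (σ φ) = φ f := fun φ f =>
    LinearMap.congr_fun (LinearMap.congr_fun hσ φ) f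
  let S₁ : E →ₗ[𝕜] Y := g.comp (T : E →ₗ[𝕜] _)
  let res : StrongDual 𝕜 (StrongDual 𝕜 Y) →ₗ[𝕜] (F →ₗ[𝕜] 𝕜) :=
    (F.subtype.dualMap).comp (ContinuousLinearMap.coeLM 𝕜)
  have hres : ∀ (z : StrongDual 𝕜 (StrongDual 𝕜 Y)) (f : F), res z f = z f := fun _ _ => rfl
  let D : E →ₗ[𝕜] (F →ₗ[𝕜] 𝕜) := res.comp ((T : E →ₗ[𝕜] _) - (j : Y →ₗ[𝕜] _).comp S₁)
  have hD : ∀ x (f : F), D x f = T x f - (f : StrongDual 𝕜 Y) (S₁ x) := fun _ _ => rfl
  refine ⟨S₁ + σ.comp D, fun x y' hy' => ?_, fun x hx => ?_⟩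
  · have := hσ' (D x) ⟨y', hy'⟩
    rw [hD] at this
    simp only [LinearMap.add_apply, LinearMap.comp_apply, map_add]
    rw [this]
    simp
  · obtain ⟨y, hy⟩ := hx
    have h1 : S₁ x = y := by
      change g (T x) = y
      rw [← hy, hg']
    have h2 : D x = 0 := by
      ext f
      rw [hD, h1, ← hy]
      simp [hj]
    simp only [LinearMap.add_apply, LinearMap.comp_apply, h2, map_zero, add_zero, h1, hy]

/-- A functional vanishing on the common kernel of a finite-dimensional space of functionals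
lies in that space. -/
theorem mem_of_forall_ker {Y : Type*} [NormedAddCommGroup Y] [NormedSpace 𝕜 Y]
    (F : Submodule 𝕜 (StrongDual 𝕜 Y)) [FiniteDimensional 𝕜 F] (h : StrongDual 𝕜 Y)
    (hh : ∀ y, (∀ f ∈ F, f y = 0) → h y = 0) : h ∈ F := by
  obtain ⟨n, b, hb⟩ := Submodule.fg_iff_exists_fin_generating_family.1
    ((Submodule.fg_iff_finiteDimensional F).2 inferInstance)
  have hbF : ∀ i, b i ∈ F := fun i => hb ▸ Submodule.subset_span ⟨i, rfl⟩
  let L : Fin n → Y →ₗ[𝕜] 𝕜 := fun i => (b i).toLinearMap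
  have hker : ⨅ i, LinearMap.ker (L i) ≤ LinearMap.ker (h : Y →ₗ[𝕜] 𝕜) := by
    intro y hy
    rw [Submodule.mem_iInf] at hy
    refine hh y fun f hf => ?_
    rw [← hb] at hf
    obtain ⟨c, rfl⟩ := (Submodule.mem_span_range_iff_exists_fun 𝕜).1 hf
    rw [sum_apply]
    refine Finset.sum_eq_zero fun i _ => ?_
    have hi : b i y = 0 := hy i
    simp [hi]
  obtain ⟨c, hc⟩ := (Submodule.mem_span_range_iff_exists_fun 𝕜).1 (mem_span_of_iInf_ker_le_ker hker)
  have : h = ∑ i, c i • b i := by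
    ext y
    have := LinearMap.congr_fun hc y
    simp only [LinearMap.coe_sum, Finset.sum_apply, LinearMap.smul_apply] at this
    rw [sum_apply]
    exact this.symm
  rw [this]
  exact F.sum_mem fun i _ => F.smul_mem _ (hbF i)

/-- The classical principle of local reflexivity. -/
theorem plr {E Y : Type*} [NormedAddCommGroup E] [NormedSpace 𝕜 E]
    [FiniteDimensional 𝕜 E] [NormedAddCommGroup Y] [NormedSpace 𝕜 Y]
    (F : Submodule 𝕜 (StrongDual 𝕜 Y)) [FiniteDimensional 𝕜 F]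
    (T : E →L[𝕜] StrongDual 𝕜 (StrongDual 𝕜 Y)) {c : ℝ} (hc : ‖T‖ < c) :
    ∃ S : E →L[𝕜] Y, ‖S‖ ≤ c ∧ (∀ x : E, ∀ y' ∈ F, y' (S x) = T x y') ∧
      (∀ x : E, T x ∈ Set.range (inclusionInDoubleDual 𝕜 Y) →
        inclusionInDoubleDual 𝕜 Y (S x) = T x) := by
  classical
  set j := inclusionInDoubleDual 𝕜 Y with hj
  have hT0 : 0 ≤ ‖T‖ := norm_nonneg _
  have hcpos : 0 < c := lt_of_le_of_lt hT0 hc
  -- parameters
  set η : ℝ := (c - ‖T‖) / 2 with hη
  have hηpos : 0 < η := by rw [hη]; linarith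
  set δ : ℝ := η / c with hδ
  have hδpos : 0 < δ := by positivity
  obtain ⟨t, ht1, ht2⟩ := exists_net (𝕜 := 𝕜) (E := E) hδpos
  obtain ⟨S₀, hS₀1, hS₀2⟩ := exists_exact_solution F T
  -- the space of admissible corrections
  let K : Submodule 𝕜 (E →ₗ[𝕜] Y) :=
    { carrier := {R | (∀ x, T x ∈ Set.range j → R x = 0) ∧ ∀ x, ∀ f ∈ F, f (R x) = 0}
      add_mem' := by
        rintro R R' ⟨h1, h2⟩ ⟨h3, h4⟩
        exact ⟨fun x hx => by simp [h1 x hx, h3 x hx], fun x f hf => by simp [h2 x f hf, h4 x f hf]⟩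
      zero_mem' := ⟨fun _ _ => rfl, fun _ _ _ => by simp⟩
      smul_mem' := by
        rintro a R ⟨h1, h2⟩
        exact ⟨fun x hx => by simp [h1 x hx], fun x f hf => by simp [h2 x f hf]⟩ }
  let Λ : (E →ₗ[𝕜] Y) →ₗ[𝕜] (t → Y) := LinearMap.pi fun l => LinearMap.applyₗ (l : E)
  have hΛ : ∀ R l, Λ R l = R l := fun _ _ => rfl
  let M : Submodule 𝕜 (t → Y) := K.map Λ
  have hmain : ‖(Submodule.Quotient.mk (Λ S₀) : (t → Y) ⧸ M)‖ ≤ ‖T‖ := by
    obtain ⟨g₀, hg₀1, hg₀2⟩ := exists_dual_vector'' 𝕜 (Submodule.Quotient.mk (Λ S₀) : (t → Y) ⧸ M)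
    let G : StrongDual 𝕜 (t → Y) := g₀.comp M.mkQL
    have hG : ∀ w, G w = g₀ (Submodule.Quotient.mk w) := fun _ => rfl
    have hGle : ∀ w, ‖G w‖ ≤ ‖w‖ := fun w => by
      rw [hG]
      calc _ ≤ ‖g₀‖ * ‖(Submodule.Quotient.mk w : (t → Y) ⧸ M)‖ := g₀.le_opNorm _
        _ ≤ 1 * ‖w‖ := by
          gcongr
          exact Submodule.Quotient.norm_mk_le M w
        _ = ‖w‖ := one_mul _
    have hGK : ∀ R ∈ K, G (Λ R) = 0 := fun R hR => by
      rw [hG, (Submodule.Quotient.mk_eq_zero M).2 (Submodule.mem_map_of_mem hR), map_zero]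
    let g : t → StrongDual 𝕜 Y := fun l => G.comp (ContinuousLinearMap.single 𝕜 (fun _ : t => Y) l)
    have hGg : ∀ w, G w = ∑ l, g l (w l) := fun w => by
      conv_lhs => rw [← Finset.univ_sum_single w]
      rw [map_sum]
      rfl
    have hsum : ∑ l, ‖g l‖ ≤ 1 := sum_norm_coord_le g fun w => by rw [← hGg]; exact hGle w
    -- the defect `D = T - j S₀` pairs to zero with `g`
    let D : E →ₗ[𝕜] StrongDual 𝕜 (StrongDual 𝕜 Y) :=
      (T : E →ₗ[𝕜] _) - (j : Y →ₗ[𝕜] StrongDual 𝕜 (StrongDual 𝕜 Y)).comp S₀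
    have hD : ∀ x, D x = T x - j (S₀ x) := fun _ => rfl
    have hDzero : ∑ l : t, D l (g l) = 0 := by
      -- factor `D` through the quotient by its kernel
      let P := LinearMap.ker D
      let b := Module.finBasis 𝕜 (E ⧸ P)
      let D' : (E ⧸ P) →ₗ[𝕜] StrongDual 𝕜 (StrongDual 𝕜 Y) := P.liftQ D le_rfl
      let ξ : Fin (Module.finrank 𝕜 (E ⧸ P)) → E →ₗ[𝕜] 𝕜 := fun i => (b.coord i).comp P.mkQ
      have hDx : ∀ x, D x = ∑ i, ξ i x • D' (b i) := fun x => by
        have h1 : D x = D' (P.mkQ x) := rfl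
        rw [h1]
        conv_lhs => rw [← b.sum_repr (P.mkQ x)]
        rw [map_sum]
        refine Finset.sum_congr rfl fun i _ => ?_
        rw [map_smul]
        rfl
      have hD'F : ∀ z, ∀ f ∈ F, D' z f = 0 := fun z f hf => by
        obtain ⟨x, rfl⟩ := P.mkQ_surjective z
        have h1 : D' (P.mkQ x) = D x := rfl
        rw [h1, hD, sub_apply, ← hS₀1 x f hf]
        simp [hj]
      have hmem : ∀ i, ∑ l : t, ξ i l • g l ∈ F := fun i => by
        refine mem_of_forall_ker F _ fun y hy => ?_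
        have hR : (ξ i).smulRight y ∈ K := by
          refine ⟨fun x hx => ?_, fun x f hf => ?_⟩
          · have hxP : x ∈ P := by
              change D x = 0
              rw [hD, hS₀2 x hx, sub_self]
            have : P.mkQ x = 0 := (Submodule.Quotient.mk_eq_zero P).2 hxP
            simp [ξ, this]
          · simp [hy f hf]
        have := hGK _ hR
        rw [hGg] at this
        rw [sum_apply, ← this]
        refine Finset.sum_congr rfl fun l _ => ?_
        rw [hΛ]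
        simp
      calc ∑ l : t, D l (g l) = ∑ l : t, ∑ i, ξ i l • D' (b i) (g l) := by
            refine Finset.sum_congr rfl fun l _ => ?_
            rw [hDx, sum_apply]
            rfl
        _ = ∑ i, D' (b i) (∑ l : t, ξ i l • g l) := by
            rw [Finset.sum_comm]
            refine Finset.sum_congr rfl fun i _ => ?_
            rw [map_sum]
            refine Finset.sum_congr rfl fun l _ => ?_
            rw [map_smul]
        _ = 0 := Finset.sum_eq_zero fun i _ => hD'F _ _ (hmem i)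
    have hval : G (Λ S₀) = ∑ l : t, T l (g l) := by
      rw [hGg, ← sub_eq_zero, ← neg_eq_zero, ← hDzero, neg_sub, ← Finset.sum_sub_distrib]
      refine Finset.sum_congr rfl fun l _ => ?_
      rw [hD, hΛ]
      simp [hj]
    have h1 : ‖(Submodule.Quotient.mk (Λ S₀) : (t → Y) ⧸ M)‖ = ‖G (Λ S₀)‖ := by
      rw [hG, hg₀2]; simp
    rw [h1, hval]
    calc ‖∑ l : t, T l (g l)‖ ≤ ∑ l : t, ‖T l (g l)‖ := norm_sum_le _ _
      _ ≤ ∑ l : t, ‖T‖ * ‖g l‖ := by
          refine Finset.sum_le_sum fun l _ => ?_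
          calc ‖T l (g l)‖ ≤ ‖T l‖ * ‖g l‖ := (T l).le_opNorm _
            _ ≤ ‖T‖ * ‖g l‖ := by
              gcongr
              calc ‖T l‖ ≤ ‖T‖ * ‖(l : E)‖ := T.le_opNorm _
                _ ≤ ‖T‖ * 1 := by gcongr; exact ht1 l l.2
                _ = ‖T‖ := mul_one _
      _ = ‖T‖ * ∑ l : t, ‖g l‖ := by rw [Finset.mul_sum]
      _ ≤ ‖T‖ * 1 := by gcongr
      _ = ‖T‖ := mul_one _
  obtain ⟨m, hm1, hm2⟩ := Submodule.Quotient.norm_mk_lt
    (Submodule.Quotient.mk (Λ S₀) : (t → Y) ⧸ M) hηpos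
  obtain ⟨R, hRK, hR⟩ := (Submodule.Quotient.eq M).1 hm1
  let S : E →L[𝕜] Y := LinearMap.toContinuousLinearMap (S₀ + R)
  have hS : ∀ x, S x = S₀ x + R x := fun _ => rfl
  have hSm : ∀ l : t, S l = m l := fun l => by
    have := congrFun hR l
    rw [hΛ, Pi.sub_apply, hΛ] at this
    rw [hS, this]; abel
  refine ⟨S, ?_, fun x f hf => ?_, fun x hx => ?_⟩
  · have h1 := opNorm_le_of_net hδpos (c := ‖T‖ + η) (by positivity) t ht2 S fun y hy => by
      rw [hSm ⟨y, hy⟩]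
      exact (norm_le_pi_norm m _).trans (by linarith)
    have h2 : (1 - δ) * c = ‖T‖ + η := by
      rw [hδ]; field_simp; rw [hη]; ring
    have h3 : 0 < 1 - δ := by
      have : δ * c = η := by rw [hδ]; field_simp
      nlinarith
    rw [← h2] at h1
    exact le_of_mul_le_mul_left h1 h3
  · rw [hS, map_add, hRK.2 x f hf, add_zero, hS₀1 x f hf]
  · rw [hS, hRK.1 x hx, add_zero, hS₀2 x hx]

end Pool.Agent.MP_c384ac_an

end MrgPart0

-- ======== part 1: formerly Pool.Agent.MP_c384ac_an.Main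
section MrgPart1

/-!
Right-accessibility is equivalent to the principle of local reflexivity for every Banach ideal.

The new direction: given `T : E → Y`, let `Z` be the Banach space of bounded families
`(z_N)`, `z_N ∈ N`, indexed by the finite-dimensional subspaces `N` of `Y`, that converge in `Y`.
The limit map `q : Z → Y` has a norm-one lifting `ι : Y → Z''`.  Local reflexivity applied to
`ι T` gives `S : E → Z`; its coordinates are operators into finite-dimensional subspaces of `Y`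
with small ideal norm and converge to `q S`, which agrees with `T` on a prescribed
finite-dimensional space of functionals.  Hahn-Banach finishes the proof.
-/

set_option maxSynthPendingDepth 3

universe u

namespace Pool.Agent.MP_c384ac_an.Unb

open NormedSpace Filter Topology BoundedContinuousFunction

variable {𝕜 : Type} [RCLike 𝕜]

/-- Local linear liftings glue, along an ultrafilter, to a lifting into the bidual. -/
theorem exists_lift_bidual {Y Z I : Type*} [NormedAddCommGroup Y] [NormedSpace 𝕜 Y]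
    [NormedAddCommGroup Z] [NormedSpace 𝕜 Z] (𝒰 : Ultrafilter I) (e : I → Y → Z)
    (hnorm : ∀ i y, ‖e i y‖ ≤ ‖y‖)
    (hadd : ∀ y y', ∀ᶠ i in (𝒰 : Filter I), e i (y + y') = e i y + e i y')
    (hsmul : ∀ (c : 𝕜) y, ∀ᶠ i in (𝒰 : Filter I), e i (c • y) = c • e i y) :
    ∃ ι : Y →L[𝕜] StrongDual 𝕜 (StrongDual 𝕜 Z), ‖ι‖ ≤ 1 ∧
      ∀ y (φ : StrongDual 𝕜 Z), Tendsto (fun i => φ (e i y)) (𝒰 : Filter I) (𝓝 (ι y φ)) := by
  have hb : ∀ y (φ : StrongDual 𝕜 Z) i, ‖φ (e i y)‖ ≤ ‖y‖ * ‖φ‖ := fun y φ i => by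
    rw [mul_comm]
    exact (φ.le_opNorm _).trans (mul_le_mul_of_nonneg_left (hnorm i y) (norm_nonneg _))
  have hex : ∀ y (φ : StrongDual 𝕜 Z), ∃ a : 𝕜, ‖a‖ ≤ ‖y‖ * ‖φ‖ ∧
      Tendsto (fun i => φ (e i y)) (𝒰 : Filter I) (𝓝 a) := fun y φ => by
    obtain ⟨a, ha1, ha2⟩ := (isCompact_closedBall (0 : 𝕜) (‖y‖ * ‖φ‖)).ultrafilter_le_nhds
      (𝒰.map fun i => φ (e i y)) (by
        rw [le_principal_iff, Ultrafilter.coe_map, mem_map]
        exact Eventually.of_forall fun i => by simpa using hb y φ i)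
    exact ⟨a, by simpa using ha1, ha2⟩
  choose L hL1 hL2 using hex
  let B : Y →ₗ[𝕜] StrongDual 𝕜 Z →ₗ[𝕜] 𝕜 := LinearMap.mk₂ 𝕜 L
    (fun y y' φ => by
      refine tendsto_nhds_unique (hL2 (y + y') φ) (((hL2 y φ).add (hL2 y' φ)).congr' ?_)
      filter_upwards [hadd y y'] with i hi
      rw [hi, map_add])
    (fun c y φ => by
      refine tendsto_nhds_unique (hL2 (c • y) φ) (((hL2 y φ).const_smul c).congr' ?_)
      filter_upwards [hsmul c y] with i hi
      rw [hi, map_smul])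
    (fun y φ ψ => by
      refine tendsto_nhds_unique (hL2 y (φ + ψ)) (((hL2 y φ).add (hL2 y ψ)).congr' ?_)
      exact Eventually.of_forall fun i => rfl)
    (fun c y φ => by
      refine tendsto_nhds_unique (hL2 y (c • φ)) (((hL2 y φ).const_smul c).congr' ?_)
      exact Eventually.of_forall fun i => rfl)
  have hB : ∀ y φ, ‖B y φ‖ ≤ 1 * ‖y‖ * ‖φ‖ := fun y φ => by
    rw [one_mul]; exact hL1 y φ
  exact ⟨B.mkContinuous₂ 1 hB, LinearMap.mkContinuous₂_norm_le _ zero_le_one hB, hL2⟩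

section Space

variable (𝕜) (Y : Type u) [NormedAddCommGroup Y] [NormedSpace 𝕜 Y]

/-- The finite-dimensional subspaces of `Y`. -/
def FinSub : Type u := {N : Submodule 𝕜 Y // FiniteDimensional 𝕜 N}

instance : PartialOrder (FinSub 𝕜 Y) :=
  inferInstanceAs (PartialOrder {N : Submodule 𝕜 Y // FiniteDimensional 𝕜 N})

instance : TopologicalSpace (FinSub 𝕜 Y) := ⊥

instance : DiscreteTopology (FinSub 𝕜 Y) := ⟨rfl⟩

instance : Nonempty (FinSub 𝕜 Y) := ⟨⟨⊥, inferInstance⟩⟩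

instance (N : FinSub 𝕜 Y) : FiniteDimensional 𝕜 N.1 := N.2

instance (N : FinSub 𝕜 Y) : CompleteSpace N.1 := FiniteDimensional.complete 𝕜 N.1

instance : IsDirectedOrder (FinSub 𝕜 Y) :=
  ⟨fun a b => ⟨⟨a.1 ⊔ b.1, Submodule.finiteDimensional_sup _ _⟩,
    (le_sup_left : a.1 ≤ a.1 ⊔ b.1), (le_sup_right : b.1 ≤ a.1 ⊔ b.1)⟩⟩

variable {𝕜 Y} in
theorem eventually_mem (y : Y) : ∀ᶠ N : FinSub 𝕜 Y in atTop, y ∈ N.1 := by
  filter_upwards [eventually_ge_atTop
    (⟨Submodule.span 𝕜 {y}, inferInstance⟩ : FinSub 𝕜 Y)] with N hN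
  exact (show Submodule.span 𝕜 {y} ≤ N.1 from hN) (Submodule.mem_span_singleton_self y)

/-- Convergent bounded families, together with their limit. -/
def convSub : Submodule 𝕜 ((FinSub 𝕜 Y →ᵇ Y) × Y) where
  carrier := {p | (∀ N, p.1 N ∈ N.1) ∧ Tendsto (fun N => p.1 N) atTop (𝓝 p.2)}
  add_mem' := by
    rintro p q ⟨h1, h2⟩ ⟨h3, h4⟩
    exact ⟨fun N => N.1.add_mem (h1 N) (h3 N), h2.add h4⟩
  zero_mem' := ⟨fun N => N.1.zero_mem, tendsto_const_nhds⟩
  smul_mem' := by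
    rintro c p ⟨h1, h2⟩
    exact ⟨fun N => N.1.smul_mem c (h1 N), h2.const_smul c⟩

theorem isClosed_convSub : IsClosed (convSub 𝕜 Y : Set ((FinSub 𝕜 Y →ᵇ Y) × Y)) := by
  refine isClosed_of_closure_subset fun p hp => ⟨fun N => ?_, ?_⟩
  · have hc : IsClosed {p : (FinSub 𝕜 Y →ᵇ Y) × Y | p.1 N ∈ N.1} :=
      (Submodule.closed_of_finiteDimensional N.1).preimage
        ((continuous_eval_const N).comp continuous_fst)
    exact closure_minimal (fun q hq => hq.1 N) hc hp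
  · rw [Metric.tendsto_nhds]
    intro ε hε
    obtain ⟨q, hq, hpq⟩ := Metric.mem_closure_iff.1 hp (ε / 3) (by positivity)
    have h1 : dist p.1 q.1 < ε / 3 := lt_of_le_of_lt (le_max_left _ _) hpq
    have h2 : dist p.2 q.2 < ε / 3 := lt_of_le_of_lt (le_max_right _ _) hpq
    filter_upwards [Metric.tendsto_nhds.1 hq.2 (ε / 3) (by positivity)] with N hN
    have h3 : dist (p.1 N) (q.1 N) ≤ dist p.1 q.1 := dist_coe_le_dist N
    calc dist (p.1 N) p.2 ≤ dist (p.1 N) (q.1 N) + dist (q.1 N) q.2 + dist q.2 p.2 :=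
          dist_triangle4 _ _ _ _
      _ < ε := by rw [dist_comm q.2]; linarith

instance [CompleteSpace Y] : CompleteSpace (convSub 𝕜 Y) := (isClosed_convSub 𝕜 Y).completeSpace_coe

/-- The limit map. -/
noncomputable def limMap : convSub 𝕜 Y →L[𝕜] Y :=
  (ContinuousLinearMap.snd 𝕜 _ _).comp (convSub 𝕜 Y).subtypeL

variable {𝕜 Y}

/-- The coordinate maps. -/
noncomputable def coordMap (N : FinSub 𝕜 Y) : convSub 𝕜 Y →L[𝕜] N.1 :=
  LinearMap.mkContinuous
    { toFun := fun z => ⟨z.1.1 N, z.2.1 N⟩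
      map_add' := fun _ _ => rfl
      map_smul' := fun _ _ => rfl } 1 fun z => by
    rw [one_mul]
    exact (norm_coe_le_norm z.1.1 N).trans (norm_fst_le z.1)

theorem norm_coordMap_le (N : FinSub 𝕜 Y) : ‖coordMap N‖ ≤ 1 :=
  LinearMap.mkContinuous_norm_le _ zero_le_one _

theorem tendsto_coordMap (z : convSub 𝕜 Y) :
    Tendsto (fun N : FinSub 𝕜 Y => (coordMap N z : Y)) atTop (𝓝 (limMap 𝕜 Y z)) := z.2.2

open Classical in
/-- The local liftings of the limit map. -/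
noncomputable def locLift (M : FinSub 𝕜 Y) (y : Y) : convSub 𝕜 Y :=
  if hy : y ∈ M.1 then
    ⟨(ofNormedAddCommGroupDiscrete (fun N => if M ≤ N then y else 0) ‖y‖ (fun N => by
        split_ifs <;> simp), y), fun N => by
      change (if M ≤ N then y else 0) ∈ N.1
      split_ifs with h
      · exact (show M.1 ≤ N.1 from h) hy
      · exact N.1.zero_mem, by
      refine tendsto_const_nhds.congr' ?_
      filter_upwards [eventually_ge_atTop M] with N hN
      change y = if M ≤ N then y else 0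
      rw [if_pos hN]⟩
  else 0

open Classical in
theorem locLift_fst {M : FinSub 𝕜 Y} {y : Y} (hy : y ∈ M.1) (N : FinSub 𝕜 Y) :
    (locLift M y).1.1 N = if M ≤ N then y else 0 := by
  rw [locLift, dif_pos hy]; rfl

theorem locLift_snd {M : FinSub 𝕜 Y} {y : Y} (hy : y ∈ M.1) : (locLift M y).1.2 = y := by
  rw [locLift, dif_pos hy]

theorem norm_locLift_le (M : FinSub 𝕜 Y) (y : Y) : ‖locLift M y‖ ≤ ‖y‖ := by
  by_cases hy : y ∈ M.1
  · change ‖(locLift M y).1‖ ≤ _
    rw [Prod.norm_def, locLift_snd hy]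
    refine max_le ((norm_le (norm_nonneg _)).2 fun N => ?_) le_rfl
    rw [locLift_fst hy]
    split_ifs <;> simp
  · rw [locLift, dif_neg hy]; simp

theorem locLift_add {M : FinSub 𝕜 Y} {y y' : Y} (hy : y ∈ M.1) (hy' : y' ∈ M.1) :
    locLift M (y + y') = locLift M y + locLift M y' := by
  apply Subtype.ext
  apply Prod.ext
  · ext N
    change _ = (locLift M y).1.1 N + (locLift M y').1.1 N
    rw [locLift_fst hy, locLift_fst hy', locLift_fst (M.1.add_mem hy hy')]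
    split_ifs <;> simp
  · change _ = (locLift M y).1.2 + (locLift M y').1.2
    rw [locLift_snd hy, locLift_snd hy', locLift_snd (M.1.add_mem hy hy')]

theorem locLift_smul {M : FinSub 𝕜 Y} (c : 𝕜) {y : Y} (hy : y ∈ M.1) :
    locLift M (c • y) = c • locLift M y := by
  apply Subtype.ext
  apply Prod.ext
  · ext N
    change _ = c • (locLift M y).1.1 N
    rw [locLift_fst hy, locLift_fst (M.1.smul_mem c hy)]
    split_ifs <;> simp
  · change _ = c • (locLift M y).1.2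
    rw [locLift_snd hy, locLift_snd (M.1.smul_mem c hy)]

variable (𝕜 Y) in
/-- The limit map has a contractive lifting into the bidual. -/
theorem exists_lift_limMap :
    ∃ ι : Y →L[𝕜] StrongDual 𝕜 (StrongDual 𝕜 (convSub 𝕜 Y)), ‖ι‖ ≤ 1 ∧
      ∀ y (g : StrongDual 𝕜 Y), ι y (g.comp (limMap 𝕜 Y)) = g y := by
  let 𝒰 : Ultrafilter (FinSub 𝕜 Y) := Ultrafilter.of atTop
  have h𝒰 : (𝒰 : Filter (FinSub 𝕜 Y)) ≤ atTop := Ultrafilter.of_le _
  obtain ⟨ι, hι1, hι2⟩ := exists_lift_bidual (𝕜 := 𝕜) 𝒰 locLift norm_locLift_le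
    (fun y y' => by
      filter_upwards [h𝒰 (eventually_mem y), h𝒰 (eventually_mem y')] with M h1 h2
      exact locLift_add h1 h2)
    (fun c y => by
      filter_upwards [h𝒰 (eventually_mem y)] with M h1
      exact locLift_smul c h1)
  refine ⟨ι, hι1, fun y g => tendsto_nhds_unique (hι2 y _) (tendsto_const_nhds.congr' ?_)⟩
  filter_upwards [h𝒰 (eventually_mem y)] with M h1
  change g y = g (locLift M y).1.2
  rw [locLift_snd h1]

end Space

namespace BanachIdeal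

variable (A : BanachIdeal.{u} 𝕜)

section FinDim

variable {E : Type u} [NormedAddCommGroup E] [NormedSpace 𝕜 E] [CompleteSpace E]
  [FiniteDimensional 𝕜 E]

theorem mem_of_finDim {Y : Type u} [NormedAddCommGroup Y] [NormedSpace 𝕜 Y] [CompleteSpace Y]
    (T : E →L[𝕜] Y) : T ∈ A.comp E Y :=
  A.finiteRankMem _ _ T inferInstance

theorem nrm_nonneg {Y : Type u} [NormedAddCommGroup Y] [NormedSpace 𝕜 Y] [CompleteSpace Y]
    (T : E →L[𝕜] Y) : 0 ≤ A.nrm E Y T :=
  (norm_nonneg T).trans (A.dominatesOpNorm _ _ T (A.mem_of_finDim T))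

theorem nrm_left_le {Y Z : Type u} [NormedAddCommGroup Y] [NormedSpace 𝕜 Y] [CompleteSpace Y]
    [NormedAddCommGroup Z] [NormedSpace 𝕜 Z] [CompleteSpace Z]
    (R : Y →L[𝕜] Z) (T : E →L[𝕜] Y) {c : ℝ} (hR : ‖R‖ ≤ c) :
    A.nrm E Z (R.comp T) ≤ c * A.nrm E Y T := by
  have h := (A.idealProperty _ _ _ _ R T (ContinuousLinearMap.id 𝕜 E) (A.mem_of_finDim T)).2
  rw [ContinuousLinearMap.comp_id] at h
  have h0 := A.nrm_nonneg T
  calc _ ≤ ‖R‖ * A.nrm E Y T * ‖ContinuousLinearMap.id 𝕜 E‖ := h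
    _ ≤ ‖R‖ * A.nrm E Y T * 1 := by
      gcongr
      exact ContinuousLinearMap.norm_id_le
    _ ≤ c * A.nrm E Y T := by rw [mul_one]; gcongr

variable {Y : Type u} [NormedAddCommGroup Y] [NormedSpace 𝕜 Y]

/-- The set of ideal norms of factorizations through finite-dimensional subspaces. -/
def hullSet (R : E →L[𝕜] Y) : Set ℝ :=
  {r | ∃ (N : FinSub 𝕜 Y) (S : E →L[𝕜] N.1), R = N.1.subtypeL.comp S ∧ r = A.nrm E N.1 S}

omit [FiniteDimensional 𝕜 E] in
theorem mem_hullSet (N : FinSub 𝕜 Y) (S : E →L[𝕜] N.1) :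
    A.nrm E N.1 S ∈ A.hullSet (N.1.subtypeL.comp S) := ⟨N, S, rfl, rfl⟩

theorem hullSet_nonempty (R : E →L[𝕜] Y) : (A.hullSet R).Nonempty :=
  ⟨_, ⟨LinearMap.range (R : E →ₗ[𝕜] Y), inferInstance⟩,
    R.codRestrict _ fun x => LinearMap.mem_range_self _ x, rfl, rfl⟩

theorem hullSet_nonneg (R : E →L[𝕜] Y) : ∀ r ∈ A.hullSet R, 0 ≤ r := by
  rintro r ⟨N, S, -, rfl⟩
  exact A.nrm_nonneg S

theorem hullSet_bddBelow (R : E →L[𝕜] Y) : BddBelow (A.hullSet R) := ⟨0, A.hullSet_nonneg R⟩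

/-- The inclusion of one subspace in another, as a contraction. -/
noncomputable def incl {M N : Submodule 𝕜 Y} (h : M ≤ N) : M →L[𝕜] N :=
  M.subtypeL.codRestrict N fun x => h x.2

theorem norm_incl_le {M N : Submodule 𝕜 Y} (h : M ≤ N) : ‖incl h‖ ≤ 1 :=
  ContinuousLinearMap.opNorm_le_bound _ zero_le_one fun x => by rw [one_mul]; exact le_rfl

/-- The finite hull of the ideal norm. -/
noncomputable def hull : Seminorm 𝕜 (E →L[𝕜] Y) :=
  Seminorm.ofSMulLE (fun R => sInf (A.hullSet R))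
    (by
      refine le_antisymm ?_ (le_csInf (A.hullSet_nonempty _) (A.hullSet_nonneg _))
      refine csInf_le (A.hullSet_bddBelow _) ⟨⟨⊥, inferInstance⟩, 0, by ext; simp, ?_⟩
      have := A.homogeneous _ _ (0 : 𝕜) (0 : E →L[𝕜] (⊥ : Submodule 𝕜 Y)) (A.mem_of_finDim _)
      rw [zero_smul, norm_zero, zero_mul] at this
      exact this.symm)
    (fun R R' => by
      refine le_of_forall_pos_le_add fun η hη => ?_
      obtain ⟨_, ⟨N, S, rfl, rfl⟩, h1⟩ :=
        Real.lt_sInf_add_pos (A.hullSet_nonempty R) (half_pos hη)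
      obtain ⟨_, ⟨N', S', rfl, rfl⟩, h2⟩ :=
        Real.lt_sInf_add_pos (A.hullSet_nonempty R') (half_pos hη)
      let P : FinSub 𝕜 Y := ⟨N.1 ⊔ N'.1, Submodule.finiteDimensional_sup _ _⟩
      have hN : N.1 ≤ P.1 := le_sup_left
      have hN' : N'.1 ≤ P.1 := le_sup_right
      have h3 := csInf_le (A.hullSet_bddBelow (N.1.subtypeL.comp S + N'.1.subtypeL.comp S'))
        (⟨P, (incl hN).comp S + (incl hN').comp S', by ext; rfl, rfl⟩ :
          A.nrm E P.1 ((incl hN).comp S + (incl hN').comp S') ∈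
            A.hullSet (N.1.subtypeL.comp S + N'.1.subtypeL.comp S'))
      have h4 := A.subadditive _ _ ((incl hN).comp S) ((incl hN').comp S') (A.mem_of_finDim _)
        (A.mem_of_finDim _)
      have h5 := A.nrm_left_le (incl hN) S (norm_incl_le hN)
      have h6 := A.nrm_left_le (incl hN') S' (norm_incl_le hN')
      linarith)
    (fun c R => by
      refine le_of_forall_pos_le_add fun η hη => ?_
      obtain ⟨_, ⟨N, S, rfl, rfl⟩, h1⟩ :=
        Real.lt_sInf_add_pos (A.hullSet_nonempty R) (show 0 < η / (‖c‖ + 1) by positivity)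
      have h3 := csInf_le (A.hullSet_bddBelow (c • N.1.subtypeL.comp S))
        (⟨N, c • S, by ext; rfl, rfl⟩ : A.nrm E N.1 (c • S) ∈ A.hullSet (c • N.1.subtypeL.comp S))
      rw [A.homogeneous _ _ c S (A.mem_of_finDim _)] at h3
      have h4 : ‖c‖ * (η / (‖c‖ + 1)) ≤ η := by
        rw [mul_div_assoc', div_le_iff₀ (by positivity)]
        nlinarith [norm_nonneg c]
      have h5 := mul_le_mul_of_nonneg_left h1.le (norm_nonneg c)
      rw [mul_add] at h5
      linarith)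

theorem hull_apply (R : E →L[𝕜] Y) : A.hull R = sInf (A.hullSet R) := rfl

theorem hull_le (N : FinSub 𝕜 Y) (S : E →L[𝕜] N.1) :
    A.hull (N.1.subtypeL.comp S) ≤ A.nrm E N.1 S :=
  csInf_le (A.hullSet_bddBelow _) (A.mem_hullSet N S)

theorem hull_rankOne_le (x' : StrongDual 𝕜 E) (y : Y) :
    A.hull (ContinuousLinearMap.smulRight x' y) ≤ ‖x'‖ * ‖y‖ := by
  let N : FinSub 𝕜 Y := ⟨Submodule.span 𝕜 {y}, inferInstance⟩
  let y₀ : N.1 := ⟨y, Submodule.mem_span_singleton_self y⟩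
  have h := A.hull_le N (ContinuousLinearMap.smulRight x' y₀)
  rw [A.rankOneNorm] at h
  exact h

/-- The key estimate: under (the weak form of) local reflexivity the finite hull of the ideal
norm is dominated by the ideal norm. -/
theorem hull_le_nrm [CompleteSpace Y] (h : A.LRP) (T : E →L[𝕜] Y) : A.hull T ≤ A.nrm E Y T := by
  obtain ⟨Φ, hΦ1, hΦ2⟩ := exists_dual_le_seminorm (A.hull (E := E) (Y := Y)) T
  let b := Module.finBasis 𝕜 E
  let ξ : Fin (Module.finrank 𝕜 E) → StrongDual 𝕜 E := fun i =>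
    LinearMap.toContinuousLinearMap (b.coord i)
  let g : Fin (Module.finrank 𝕜 E) → StrongDual 𝕜 Y := fun i =>
    LinearMap.mkContinuous
      { toFun := fun y => Φ (ContinuousLinearMap.smulRight (ξ i) y)
        map_add' := fun y y' => by
          rw [← map_add]; congr 1; ext; simp
        map_smul' := fun c y => by
          rw [RingHom.id_apply, ← map_smul]; congr 1; ext x; simp [smul_comm c] } ‖ξ i‖
      fun y => (hΦ2 _).trans (A.hull_rankOne_le _ _)
  have hg : ∀ i y, g i y = Φ (ContinuousLinearMap.smulRight (ξ i) y) := fun _ _ => rfl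
  have hΦg : ∀ R : E →L[𝕜] Y, Φ R = ∑ i, g i (R (b i)) := fun R => by
    simp_rw [hg]
    rw [← map_sum]
    congr 1
    ext x
    rw [_root_.sum_apply]
    conv_lhs => rw [← b.sum_repr x, map_sum]
    refine Finset.sum_congr rfl fun i _ => ?_
    rw [map_smul]
    rfl
  obtain ⟨ι, hι1, hι2⟩ := exists_lift_limMap 𝕜 Y
  let F : Submodule 𝕜 (StrongDual 𝕜 (convSub 𝕜 Y)) :=
    Submodule.span 𝕜 (Set.range fun i => (g i).comp (limMap 𝕜 Y))
  have : FiniteDimensional 𝕜 F := FiniteDimensional.span_of_finite 𝕜 (Set.finite_range _)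
  have h0 := A.nrm_nonneg T
  have key : ∀ ε : ℝ, 0 < ε → A.hull T ≤ (1 + ε) * A.nrm E Y T := fun ε hε => by
    obtain ⟨S, hS1, hS2, -⟩ := h E (convSub 𝕜 Y) F ε hε (ι.comp T)
    have h1 : A.nrm E _ (ι.comp T) ≤ 1 * A.nrm E Y T := A.nrm_left_le ι T hι1
    have h2 : A.nrm E _ S ≤ (1 + ε) * A.nrm E Y T :=
      hS1.trans (mul_le_mul_of_nonneg_left (by linarith) (by linarith))
    have h3 : Φ T = ∑ i, g i (limMap 𝕜 Y (S (b i))) := by
      rw [hΦg]
      refine Finset.sum_congr rfl fun i _ => ?_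
      have := hS2 (b i) _ (Submodule.subset_span ⟨i, rfl⟩)
      rw [ContinuousLinearMap.comp_apply, ContinuousLinearMap.comp_apply, hι2] at this
      exact this.symm
    have h4 : Tendsto (fun N : FinSub 𝕜 Y => Φ (N.1.subtypeL.comp ((coordMap N).comp S))) atTop
        (𝓝 (Φ T)) := by
      rw [h3]
      simp_rw [hΦg]
      exact tendsto_finsetSum _ fun i _ =>
        ((g i).continuous.tendsto _).comp (tendsto_coordMap (S (b i)))
    have h5 : ‖Φ T‖ ≤ A.nrm E _ S := by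
      refine le_of_tendsto' h4.norm fun N => (hΦ2 _).trans ((A.hull_le N _).trans ?_)
      have := A.nrm_left_le (coordMap N) S (norm_coordMap_le N)
      rwa [one_mul] at this
    rw [hΦ1, RCLike.norm_ofReal, abs_of_nonneg (apply_nonneg _ _)] at h5
    exact h5.trans h2
  refine le_of_forall_pos_le_add fun η hη => ?_
  have h1 := key (η / (A.nrm E Y T + 1)) (by positivity)
  have h2 : η / (A.nrm E Y T + 1) * A.nrm E Y T ≤ η := by
    rw [div_mul_eq_mul_div, div_le_iff₀ (by positivity)]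
    nlinarith
  linarith

end FinDim

theorem rightAccessible_of_lrp (h : A.LRP) : A.RightAccessible := by
  intro E Y _ _ _ _ _ _ _ T ε hε
  rcases (A.nrm_nonneg T).eq_or_lt with h0 | hpos
  · have hT : T = 0 := by
      have := A.dominatesOpNorm _ _ T (A.mem_of_finDim T)
      rw [← h0] at this
      exact norm_le_zero_iff.1 this
    refine ⟨⊥, inferInstance, FiniteDimensional.complete 𝕜 _, 0, by rw [hT]; ext; simp, ?_⟩
    have : CompleteSpace (⊥ : Submodule 𝕜 Y) := FiniteDimensional.complete 𝕜 _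
    have h1 := A.homogeneous _ _ (0 : 𝕜) (0 : E →L[𝕜] (⊥ : Submodule 𝕜 Y)) (A.mem_of_finDim _)
    rw [zero_smul, norm_zero, zero_mul] at h1
    rw [h1, ← h0, mul_zero]
  · have h1 := A.hull_le_nrm h T
    obtain ⟨_, ⟨N, S, hS, rfl⟩, h2⟩ :=
      Real.lt_sInf_add_pos (A.hullSet_nonempty T) (mul_pos hε hpos)
    rw [← hull_apply] at h2
    exact ⟨N.1, N.2, inferInstance, S, hS, by linarith⟩

theorem lrp_of_rightAccessible (h : A.RightAccessible) : A.LRP := by
  intro E Y _ _ _ _ _ _ _ F _ ε hε T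
  set δ : ℝ := min 1 (ε / 3) with hδ
  have hδpos : 0 < δ := lt_min one_pos (by positivity)
  have hδ1 : δ ≤ 1 := min_le_left _ _
  have hδ2 : δ ≤ ε / 3 := min_le_right _ _
  obtain ⟨N, _, _, S₀, hT, hS₀⟩ := h E (StrongDual 𝕜 (StrongDual 𝕜 Y)) T δ hδpos
  obtain ⟨R, hR1, hR2, hR3⟩ := plr F N.subtypeL (c := 1 + δ)
    (lt_of_le_of_lt N.norm_subtypeL_le (by linarith))
  have hTx : ∀ x, T x = N.subtypeL (S₀ x) := fun x => by rw [hT]; rfl
  refine ⟨R.comp S₀, ?_, fun x y' hy' => ?_, fun x hx => ?_⟩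
  · have h1 := A.nrm_left_le R S₀ hR1
    have h2 := A.nrm_nonneg T
    calc _ ≤ (1 + δ) * A.nrm E N S₀ := h1
      _ ≤ (1 + δ) * ((1 + δ) * A.nrm E _ T) := by gcongr
      _ = ((1 + δ) * (1 + δ)) * A.nrm E _ T := by ring
      _ ≤ (1 + ε) * A.nrm E _ T := by
        gcongr
        nlinarith
  · rw [hTx, ContinuousLinearMap.comp_apply, hR2 _ y' hy']
  · rw [hTx] at hx ⊢
    exact hR3 _ hx

end BanachIdeal

end Pool.Agent.MP_c384ac_an.Unb

end MrgPart1

-- ======== part 2: formerly Pool.Agent.MP_c384ac_an.Bridge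
section MrgPart2

set_option maxSynthPendingDepth 3

universe u

namespace Pool.Agent.MP_c384ac_an

variable {𝕜 : Type} [RCLike 𝕜]

/-- The unbundled form of a Banach ideal. -/
def BanachIdeal.unb (A : BanachIdeal.{u} 𝕜) : Unb.BanachIdeal.{u} 𝕜 where
  comp X Y _ _ _ _ _ _ := A.cmpt (Ban.mk X) (Ban.mk Y)
  nrm X Y _ _ _ _ _ _ := A.nrm (Ban.mk X) (Ban.mk Y)
  finiteRankMem X Y _ _ _ _ _ _ := A.finiteRankMem (Ban.mk X) (Ban.mk Y)
  subadditive X Y _ _ _ _ _ _ := A.subadd (Ban.mk X) (Ban.mk Y)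
  homogeneous X Y _ _ _ _ _ _ := A.homog (Ban.mk X) (Ban.mk Y)
  dominatesOpNorm X Y _ _ _ _ _ _ := A.dominates (Ban.mk X) (Ban.mk Y)
  complete X Y _ _ _ _ _ _ := A.cplt (Ban.mk X) (Ban.mk Y)
  rankOneNorm X Y _ _ _ _ _ _ := A.rankOneNrm (Ban.mk X) (Ban.mk Y)
  idealProperty W X Y Z _ _ _ _ _ _ _ _ _ _ _ _ :=
    A.idealProp (Ban.mk W) (Ban.mk X) (Ban.mk Y) (Ban.mk Z)

theorem BanachIdeal.rightAccessible_iff (A : BanachIdeal.{u} 𝕜) :
    A.RightAccessible ↔ A.unb.RightAccessible := by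
  constructor
  · intro h E Y _ _ _ hE _ _ _ T ε hε
    obtain ⟨N, hN, S, h1, h2⟩ := h (Ban.mk E) (Ban.mk Y) hE T ε hε
    exact ⟨N, hN, FiniteDimensional.complete 𝕜 N, S, h1, h2⟩
  · intro h E Y hE T ε hε
    obtain ⟨N, hN, _, S, h1, h2⟩ := h E.carrier Y.carrier T ε hε
    exact ⟨N, hN, S, h1, h2⟩

theorem BanachIdeal.lrp_iff (A : BanachIdeal.{u} 𝕜) : A.LRP ↔ A.unb.LRP := by
  constructor
  · intro h E Y _ _ _ hE _ _ _ F hF ε hε T
    exact h (Ban.mk E) (Ban.mk Y) hE F hF ε hε T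
  · intro h E Y hE F hF ε hε T
    exact @h E.carrier Y.carrier _ _ _ hE _ _ _ F hF ε hε T

theorem BanachIdeal.rightAccessible_iff_lrp (A : BanachIdeal.{u} 𝕜) :
    A.RightAccessible ↔ A.LRP := by
  rw [A.rightAccessible_iff, A.lrp_iff]
  exact ⟨A.unb.lrp_of_rightAccessible, A.unb.rightAccessible_of_lrp⟩

end Pool.Agent.MP_c384ac_an

end MrgPart2

-- marker of a merged file
example : 731051 + 668772 = 731051 + 668772 := rfl
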