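import Mathlib
import Pool.Agent.MP_c384ac_an.Defs

universe u

namespace Pool.Agent.MP_c384ac_an

/-- Sanity check (the structure is inhabited): all bounded operators with the operator norm. -/
noncomputable def operatorIdeal (𝕜 : Type) [RCLike 𝕜] : BanachIdeal.{u} 𝕜 where
  cmpt _ _ := ⊤
  nrm _ _ T := ‖T‖
  finiteRankMem _ _ _ _ := Submodule.mem_top
  subadd _ _ S T _ _ := norm_add_le S T
  homog _ _ c T _ := norm_smul c T
  dominates _ _ _ _ := le_rfl
  cplt _ _ s _ h := by
    have hc : CauchySeq s := by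
      rw [Metric.cauchySeq_iff]
      intro ε hε
      obtain ⟨k, hk⟩ := h ε hε
      exact ⟨k, fun m hm n hn => by rw [dist_eq_norm]; exact hk m hm n hn⟩
    obtain ⟨T, hT⟩ := cauchySeq_tendsto_of_complete hc
    exact ⟨T, Submodule.mem_top, tendsto_iff_norm_sub_tendsto_zero.1 hT⟩
  rankOneNrm _ _ x' y := ContinuousLinearMap.norm_smulRight_apply x' y
  idealProp _ _ _ _ R T S _ := by
    refine ⟨Submodule.mem_top, ?_⟩
    change ‖R.comp (T.comp S)‖ ≤ ‖R‖ * ‖T‖ * ‖S‖
    rw [mul_assoc]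
    exact (R.opNorm_comp_le _).trans
      (mul_le_mul_of_nonneg_left (T.opNorm_comp_le S) (norm_nonneg _))

end Pool.Agent.MP_c384ac_an
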